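import Pool.Agent.MP_ee8c61_ag.R3P.Rows
import Pool.Agent.MP_ee8c61_ag.N3.Fin1

/-! The output of block P. -/

namespace Pool.Agent.MP_ee8c61_ag.N3.Q3P

open Pool.Agent.MP_ee8c61_ag.M3

set_option linter.unusedSectionVars false

variable [Base]

theorem pout : Q3.POut := pout_of M3E.eout N3.sch

end Pool.Agent.MP_ee8c61_ag.N3.Q3P
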